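import Pool.Agent.Run7.h342.MD.Stm

/-!
# Piece INT: the functions on `GL_n` are integral over the functions on an orbit
-/

set_option autoImplicit false

namespace Run7.h267.MD

open MvPolynomial Run7.h342.MD

noncomputable section

variable {n d : ℕ}

section maps

variable {R S : Type} [CommRing R] [CommRing S]

theorem pol_map (f : R →+* S) (c : Ix n d → R) (j : Fin n) :
    MvPolynomial.map f (pol c j) = pol (fun q => f (c q)) j := by
  unfold pol
  rw [map_sum]
  refine Finset.sum_congr rfl fun s _ => ?_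
  rw [map_mul, map_C, map_multiset_prod, Multiset.map_map]
  congr 2
  apply Multiset.map_congr rfl
  intro x _
  exact map_X f x

theorem tw_map (f : R →+* S) (A B : Matrix (Fin n) (Fin n) R) (c : Ix n d → R) (q : Ix n d) :
    f (tw A B c q) = tw (A.map f) (B.map f) (fun q => f (c q)) q := by
  unfold tw
  rw [← coeff_map, map_sum]
  congr 1
  refine Finset.sum_congr rfl fun j _ => ?_
  rw [map_mul, map_C, Matrix.map_apply]
  congr 1
  have h := map_bind₁ f (fun l => ∑ m, C (B l m) * X m) (pol c j)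
  have h2 : (fun l => (MvPolynomial.map f) (∑ m, C (B l m) * X m)) =
      (fun l => ∑ m, C ((B.map f) l m) * X m : Fin n → MvPolynomial (Fin n) S) := by
    funext l
    rw [map_sum]
    refine Finset.sum_congr rfl fun m _ => ?_
    rw [map_mul, map_C, map_X, Matrix.map_apply]
  rw [h2, pol_map] at h
  exact h

theorem ev_map (f : R →+* S) (c : Ix n d → R) (x : Fin n → R) (i : Fin n) :
    f (ev c x i) = ev (fun q => f (c q)) (fun l => f (x l)) i := by
  unfold ev
  rw [map_sum]
  refine Finset.sum_congr rfl fun s _ => ?_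
  rw [map_mul, map_multiset_prod, Multiset.map_map]
  rfl

end maps

variable {k : Type} [Field k]

theorem unit_of_local {V : Type} [CommRing V] [IsLocalRing V] (ι : k →+* V)
    {Θ : MvPolynomial (Ix n d) k} (hΘ : IsRes Θ) (c : Ix n d → V) (hu : IsUnit (eval₂ ι c Θ))
    (y : Fin n → V) (i : Fin n) (hy : IsUnit (y i)) : ∃ j, IsUnit (ev c y j) := by
  by_contra hcon
  push Not at hcon
  let r : V →+* IsLocalRing.ResidueField V := IsLocalRing.residue V
  let _ : Algebra k (IsLocalRing.ResidueField V) := (r.comp ι).toAlgebra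
  have h1 : aeval (fun q => r (c q)) Θ = 0 := by
    apply hΘ.gen (IsLocalRing.ResidueField V) (fun q => r (c q)) (fun l => r (y l))
    · intro h
      have h3 := congrFun h i
      have h2 : r (y i) ≠ 0 := (IsLocalRing.residue_ne_zero_iff_isUnit _).2 hy
      exact h2 h3
    · funext j
      rw [← ev_map r c y j]
      exact (IsLocalRing.residue_eq_zero_iff _).2 ((IsLocalRing.mem_maximalIdeal _).2 (hcon j))
  have h2 : r (eval₂ ι c Θ) = 0 := by
    rw [eval₂_comp_left]
    exact h1
  exact (IsLocalRing.residue_ne_zero_iff_isUnit _).2 hu h2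

theorem entries_mem {K : Type} [Field K] (V : ValuationSubring K) (ι : k →+* V)
    {Θ : MvPolynomial (Ix n d) k} (hΘ : IsRes Θ) (hd : 2 ≤ d)
    (M : Matrix (Fin n) (Fin n) K) (c₁ c₂ : Ix n d → V) (hu : IsUnit (eval₂ ι c₁ Θ))
    (hM : ∀ x : Fin n → K, ev (fun q => (c₁ q : K)) (M.mulVec x) =
      M.mulVec (ev (fun q => (c₂ q : K)) x)) (i j : Fin n) : M i j ∈ V := by
  by_contra hij
  have : Nonempty (Fin n × Fin n) := ⟨(i, j)⟩
  obtain ⟨⟨i₀, j₀⟩, hmax⟩ := Finite.exists_max (fun p : Fin n × Fin n => V.valuation (M p.1 p.2))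
  set γ : K := M i₀ j₀ with hγ
  have h1 : 1 < V.valuation (M i j) := by
    rw [← not_le, V.valuation_le_one_iff]
    exact hij
  have h2 : 1 < V.valuation γ := lt_of_lt_of_le h1 (hmax (i, j))
  have hγ0 : γ ≠ 0 := by
    intro h
    rw [h, map_zero] at h2
    exact absurd h2 (not_lt_of_ge zero_le_one)
  have hγV : γ ∉ V := by
    rw [← V.valuation_le_one_iff]
    exact not_le_of_gt h2
  have hent : ∀ a b, γ⁻¹ * M a b ∈ V := by
    intro a b
    rw [← V.valuation_le_one_iff, map_mul, map_inv₀]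
    have h3 := hmax (a, b)
    have h4 : V.valuation γ ≠ 0 := (V.valuation.ne_zero_iff).2 hγ0
    calc (V.valuation γ)⁻¹ * V.valuation (M a b) ≤ (V.valuation γ)⁻¹ * V.valuation γ := by
          gcongr
      _ = 1 := inv_mul_cancel₀ h4
  let N : Matrix (Fin n) (Fin n) V := fun a b => ⟨γ⁻¹ * M a b, hent a b⟩
  have hN : ∀ a b, M a b = γ * (N a b : K) := by
    intro a b
    change M a b = γ * (γ⁻¹ * M a b)
    rw [mul_inv_cancel_left₀ hγ0]
  have hδ : γ⁻¹ ∈ V := by
    rw [← V.valuation_le_one_iff, map_inv₀]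
    exact inv_le_one_of_one_le₀ h2.le
  let δ : V := ⟨γ⁻¹, hδ⟩
  have hδu : ¬ IsUnit δ := by
    rintro ⟨u, hu⟩
    apply hγV
    have h3 : ((u : V) : K) * ((u⁻¹ : Vˣ) : V) = 1 := by
      have := u.mul_inv
      exact_mod_cast congrArg (fun z : V => (z : K)) this
    rw [hu] at h3
    change γ⁻¹ * _ = 1 at h3
    have h4 : (((u⁻¹ : Vˣ) : V) : K) = γ := by
      field_simp at h3
      exact h3
    rw [← h4]
    exact Subtype.mem _
  obtain ⟨l, hl⟩ := unit_of_local ι hΘ c₁ hu (fun a => N a j₀) i₀ (by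
    have : N i₀ j₀ = 1 := by
      apply Subtype.ext
      change γ⁻¹ * M i₀ j₀ = 1
      exact inv_mul_cancel₀ hγ0
    rw [this]
    exact isUnit_one)
  -- the equation
  let w : Fin n → V := ev c₂ (Pi.single j₀ 1)
  have hx : ev (fun q => (c₂ q : K)) (Pi.single j₀ (1 : K)) = fun a => (w a : K) := by
    funext a
    have := ev_map V.subtype c₂ (Pi.single j₀ 1) a
    have h5 : (fun l => V.subtype ((Pi.single j₀ (1 : V) : Fin n → V) l)) =
        (Pi.single j₀ (1 : K) : Fin n → K) := by
      funext b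
      by_cases hb : b = j₀
      · subst hb
        simp
      · simp [Pi.single_eq_of_ne hb]
    rw [h5] at this
    exact this.symm
  have hcol : M.mulVec (Pi.single j₀ 1) = γ • (fun a => (N a j₀ : K)) := by
    funext a
    rw [Matrix.mulVec_single_one]
    exact hN a j₀
  have hkey := congrFun (hM (Pi.single j₀ 1)) l
  rw [hcol, ev_scale, hx] at hkey
  have hE : ev (fun q => (c₁ q : K)) (fun a => (N a j₀ : K)) l = ((ev c₁ (fun a => N a j₀) l : V) : K) :=
    (ev_map V.subtype c₁ (fun a => N a j₀) l).symm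
  have hW : M.mulVec (fun a => (w a : K)) l = γ * ((N.mulVec w l : V) : K) := by
    simp only [Matrix.mulVec, dotProduct]
    have : ((∑ b, N l b * w b : V) : K) = ∑ b, (N l b : K) * (w b : K) := by
      rw [← V.subtype_apply, map_sum]
      rfl
    rw [this, Finset.mul_sum]
    refine Finset.sum_congr rfl fun b _ => ?_
    rw [hN l b, mul_assoc]
  rw [Pi.smul_apply, smul_eq_mul, hE, hW] at hkey
  -- conclusion
  obtain ⟨m, rfl⟩ : ∃ m, d = m + 2 := ⟨d - 2, by omega⟩
  have hfin : ev c₁ (fun a => N a j₀) l = δ ^ (m + 1) * N.mulVec w l := by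
    apply Subtype.ext
    have h6 : ((ev c₁ (fun a => N a j₀) l : V) : K) =
        γ⁻¹ ^ (m + 1) * ((N.mulVec w l : V) : K) := by
      have h7 : γ ^ (m + 1) * ((ev c₁ (fun a => N a j₀) l : V) : K) = ((N.mulVec w l : V) : K) := by
        apply mul_left_cancel₀ hγ0
        rw [← hkey]
        ring
      rw [← h7, ← mul_assoc, ← mul_pow, inv_mul_cancel₀ hγ0, one_pow, one_mul]
    rw [h6]
    rfl
  rw [hfin] at hl
  exact hδu (isUnit_of_mul_isUnit_left (by rw [pow_succ'] at hl; rw [mul_assoc] at hl; exact hl))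

section loc

variable (n k)

/-- the polynomials without zeros on `GL_n` -/
def S₀ : Submonoid (MvPolynomial (Fin n × Fin n) k) where
  carrier := {b | ∀ g : GL (Fin n) k, eval (ent (g : Matrix (Fin n) (Fin n) k)) b ≠ 0}
  mul_mem' := by
    intro a b ha hb g
    rw [map_mul]
    exact mul_ne_zero (ha g) (hb g)
  one_mem' := by
    intro g
    rw [map_one]
    exact one_ne_zero

theorem S₀_le : S₀ n k ≤ nonZeroDivisors (MvPolynomial (Fin n × Fin n) k) := by
  intro b hb
  rw [mem_nonZeroDivisors_iff_ne_zero]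
  rintro rfl
  exact hb 1 (map_zero _)

/-- the ring of regular functions on `GL_n` as a localization -/
abbrev Lo : Type := Localization (S₀ n k)

instance : IsDomain (Lo n k) := IsLocalization.isDomain_localization (S₀_le n k)

variable {n k}

/-- evaluation -/
def evg (g : GL (Fin n) k) : Lo n k →+* k :=
  IsLocalization.lift (M := S₀ n k) (g := (eval (ent (g : Matrix (Fin n) (Fin n) k))))
    (fun y => isUnit_iff_ne_zero.2 (y.2 g))

theorem evg_alg (g : GL (Fin n) k) (p : MvPolynomial (Fin n × Fin n) k) :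
    evg g (algebraMap _ (Lo n k) p) = eval (ent (g : Matrix (Fin n) (Fin n) k)) p :=
  IsLocalization.lift_eq _ _

theorem isUnit_of_evg (x : Lo n k) (hx : ∀ g, evg g x ≠ 0) : IsUnit x := by
  obtain ⟨⟨a, b⟩, hab⟩ := IsLocalization.surj (S₀ n k) x
  have ha : a ∈ S₀ n k := by
    intro g hg
    have h1 := congrArg (evg g) hab
    simp only [map_mul, evg_alg] at h1
    rw [hg] at h1
    rcases mul_eq_zero.1 h1 with h2 | h2
    · exact hx g h2
    · exact b.2 g h2
  have h2 : IsUnit (x * algebraMap _ (Lo n k) (b : MvPolynomial (Fin n × Fin n) k)) := by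
    rw [hab]
    exact IsLocalization.map_units (Lo n k) (⟨a, ha⟩ : S₀ n k)
  exact isUnit_of_mul_isUnit_left h2

/-- as functions -/
def Psi : Lo n k →+* (GL (Fin n) k → k) := RingHom.pi evg

theorem det_mem : (Matrix.mvPolynomialX (Fin n) (Fin n) k).det ∈ S₀ n k := by
  intro g
  have h3 : eval (ent (g : Matrix (Fin n) (Fin n) k))
      (Matrix.mvPolynomialX (Fin n) (Fin n) k).det = (g : Matrix (Fin n) (Fin n) k).det := by
    rw [Matrix.eval_det_mvPolynomialX]
    rfl
  rw [h3]
  exact (Matrix.isUnit_iff_isUnit_det _).1 g.isUnit |>.ne_zero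

/-- the generic matrix -/
def GG : GL (Fin n) (Lo n k) :=
  Matrix.GeneralLinearGroup.mk''
    ((algebraMap (MvPolynomial (Fin n × Fin n) k) (Lo n k)).mapMatrix
      (Matrix.mvPolynomialX (Fin n) (Fin n) k)) (by
      rw [← RingHom.map_det]
      exact IsLocalization.map_units (Lo n k) (⟨_, det_mem⟩ : S₀ n k))

theorem GG_apply (i j : Fin n) :
    (GG : GL (Fin n) (Lo n k)).1 i j = algebraMap (MvPolynomial (Fin n × Fin n) k) _ (X (i, j)) := rfl

theorem map_GG (g : GL (Fin n) k) : Matrix.GeneralLinearGroup.map (evg g) GG = g := by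
  apply Units.ext
  ext i j
  change evg g ((GG : GL (Fin n) (Lo n k)).1 i j) = _
  rw [GG_apply, evg_alg, eval_X]
  rfl

theorem map_GG' (g : GL (Fin n) k) :
    Matrix.GeneralLinearGroup.map (evg g) (GG⁻¹ : GL (Fin n) (Lo n k)) = g⁻¹ := by
  rw [map_inv, map_GG]

end loc

section main

variable {n d : ℕ} {k : Type} [Field k] [IsAlgClosed k] [CharZero k]

/-- the generic point of the orbit -/
def cc (h : Ix n d → k) : Ix n d → Lo n k :=
  tw (GG : GL (Fin n) (Lo n k)).1 (GG⁻¹ : GL (Fin n) (Lo n k)).1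
    (fun q => algebraMap k (Lo n k) (h q))

theorem evg_algebraMap (g : GL (Fin n) k) (a : k) : evg g (algebraMap k (Lo n k) a) = a := by
  rw [IsScalarTower.algebraMap_apply k (MvPolynomial (Fin n × Fin n) k) (Lo n k), evg_alg,
    MvPolynomial.algebraMap_eq, eval_C]

theorem evg_cc (h : Ix n d → k) (g : GL (Fin n) k) (q : Ix n d) :
    evg g (cc h q) = act g h q := by
  unfold cc act
  rw [tw_map]
  have h1 : ((GG : GL (Fin n) (Lo n k)).1).map (evg g) = g.1 := congrArg Units.val (map_GG g)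
  have h2 : ((GG⁻¹ : GL (Fin n) (Lo n k)).1).map (evg g) = (g⁻¹ : GL (Fin n) k).1 :=
    congrArg Units.val (map_GG' g)
  rw [h1, h2]
  simp only [evg_algebraMap]

theorem evg_res (Θ : MvPolynomial (Ix n d) k) (h : Ix n d → k) (g : GL (Fin n) k) :
    evg g (eval₂ (algebraMap k (Lo n k)) (cc h) Θ) = eval (act g h) Θ := by
  rw [eval₂_comp_left]
  have h1 : (evg g).comp (algebraMap k (Lo n k)) = RingHom.id k := by
    ext a
    exact evg_algebraMap g a
  have h2 : (evg g) ∘ (cc h) = act g h := by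
    funext q
    exact evg_cc h g q
  rw [h1, h2]
  rfl

/-- the elements of `Lo` which are restrictions of functions -/
def BB (h : U n d k) : Subring (Lo n k) := (Cs h).toSubring.comap Psi

theorem mem_BB (h : U n d k) (x : Lo n k) : x ∈ BB h ↔ Psi x ∈ Cs h := Iff.rfl

theorem alg_mem (h : U n d k) (a : k) : algebraMap k (Lo n k) a ∈ BB h := by
  rw [mem_BB]
  have : Psi (algebraMap k (Lo n k) a) = algebraMap k (GL (Fin n) k → k) a := by
    funext g
    exact evg_algebraMap g a
  rw [this]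
  exact (Cs h).algebraMap_mem a

theorem cc_mem (h : U n d k) (q : Ix n d) : cc h.1 q ∈ BB h := by
  rw [mem_BB]
  refine ⟨fun x => x.1 q, ⟨X q, 1, fun x => ⟨by rw [map_one]; exact one_ne_zero, ?_⟩⟩, ?_⟩
  · rw [eval_X, map_one, div_one]
  · funext g
    exact (evg_cc h.1 g q).symm

theorem inv_mem {Θ : MvPolynomial (Ix n d) k} (hΘ : IsRes Θ) (h : U n d k) :
    ∃ t ∈ BB h, eval₂ (algebraMap k (Lo n k)) (cc h.1) Θ * t = 1 := by
  have hu : IsUnit (eval₂ (algebraMap k (Lo n k)) (cc h.1) Θ) := by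
    apply isUnit_of_evg
    intro g
    rw [evg_res]
    exact (hΘ.iff _).2 (nondeg_act g h.1 h.2)
  obtain ⟨t, ht⟩ := hu.exists_right_inv
  refine ⟨t, ?_, ht⟩
  rw [mem_BB]
  refine ⟨fun x => 1 / eval x.1 Θ, ⟨1, Θ, fun x => ⟨(hΘ.iff _).2 x.2, by rw [map_one]⟩⟩, ?_⟩
  funext g
  have h1 := congrArg (evg g) ht
  rw [map_mul, evg_res, map_one] at h1
  change 1 / eval (act g h.1) Θ = evg g t
  exact (eq_one_div_of_mul_eq_one_right h1).symm

theorem entries_integral {Θ : MvPolynomial (Ix n d) k} (hd : 2 ≤ d) (hΘ : IsRes Θ) (h : U n d k)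
    (i j : Fin n) : IsIntegral (BB h) ((GG : GL (Fin n) (Lo n k)).1 i j) ∧
      IsIntegral (BB h) ((GG⁻¹ : GL (Fin n) (Lo n k)).1 i j) := by
  let K : Type := FractionRing (Lo n k)
  let f : Lo n k →+* K := algebraMap (Lo n k) K
  have hf : Function.Injective f := IsFractionRing.injective (Lo n k) K
  obtain ⟨t, htB, ht⟩ := inv_mem hΘ h
  -- the valuation rings
  have key : ∀ V : ValuationSubring K, (((BB h).map f : Subring K) : Set K) ⊆ V.toSubring →
      f ((GG : GL (Fin n) (Lo n k)).1 i j) ∈ V ∧ f ((GG⁻¹ : GL (Fin n) (Lo n k)).1 i j) ∈ V := by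
    intro V hV
    have hVB : ∀ x ∈ BB h, f x ∈ V := fun x hx => hV ⟨x, hx, rfl⟩
    let ι : k →+* V := (f.comp (algebraMap k (Lo n k))).codRestrict V
      (fun a => hVB _ (alg_mem h a))
    let c₁ : Ix n d → V := fun q => ⟨f (cc h.1 q), hVB _ (cc_mem h q)⟩
    let c₂ : Ix n d → V := fun q => ι (h.1 q)
    have hu1 : IsUnit (eval₂ ι c₁ Θ) := by
      have h1 : ((eval₂ ι c₁ Θ : V) : K) = f (eval₂ (algebraMap k (Lo n k)) (cc h.1) Θ) := by
        rw [eval₂_comp_left f]
        rw [← V.subtype_apply, eval₂_comp_left V.subtype]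
        rfl
      have h2 : eval₂ ι c₁ Θ * ⟨f t, hVB t htB⟩ = 1 := by
        apply Subtype.ext
        change ((eval₂ ι c₁ Θ : V) : K) * f t = 1
        rw [h1, ← map_mul, ht, map_one]
      exact IsUnit.of_mul_eq_one _ h2
    have hu2 : IsUnit (eval₂ ι c₂ Θ) := by
      have h1 : eval₂ ι c₂ Θ = ι (eval h.1 Θ) := by
        have := eval₂_comp_left ι (RingHom.id k) h.1 Θ
        rw [RingHom.comp_id] at this
        exact this.symm
      rw [h1]
      exact (isUnit_iff_ne_zero.2 ((hΘ.iff _).2 h.2)).map ι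
    let GK : GL (Fin n) K := Matrix.GeneralLinearGroup.map f GG
    let hK : Ix n d → K := fun q => f (algebraMap k (Lo n k) (h.1 q))
    have hc : (fun q => (c₁ q : K)) = act GK hK := by
      funext q
      change f (cc h.1 q) = _
      unfold cc
      rw [tw_map]
      unfold act
      have h2 : ((GG⁻¹ : GL (Fin n) (Lo n k)).1).map f = (GK⁻¹ : GL (Fin n) K).1 := by
        have : Matrix.GeneralLinearGroup.map f (GG⁻¹ : GL (Fin n) (Lo n k)) = GK⁻¹ := by
          rw [map_inv]
        exact congrArg Units.val this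
      rw [h2]
      rfl
    have hc2 : (fun q => (c₂ q : K)) = hK := rfl
    have e1 := entries_mem V ι hΘ hd GK.1 c₁ c₂ hu1 (by
      intro x
      rw [hc, hc2]
      exact ev_act_mulVec GK hK x) i j
    have e2 := entries_mem V ι hΘ hd (GK⁻¹ : GL (Fin n) K).1 c₂ c₁ hu2 (by
      intro x
      rw [hc, hc2, ev_act, inv_mulVec_mulVec]) i j
    refine ⟨e1, ?_⟩
    have h2 : (GK⁻¹ : GL (Fin n) K).1 i j = f ((GG⁻¹ : GL (Fin n) (Lo n k)).1 i j) := by
      have : Matrix.GeneralLinearGroup.map f (GG⁻¹ : GL (Fin n) (Lo n k)) = GK⁻¹ := by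
        rw [map_inv]
      rw [← this]
      rfl
    rw [← h2]
    exact e2
  -- descent to the subring
  have desc : ∀ x : Lo n k, (∀ V : ValuationSubring K,
      (((BB h).map f : Subring K) : Set K) ⊆ V.toSubring → f x ∈ V) → IsIntegral (BB h) x := by
    intro x hx
    have h1 : f x ∈ (⨅ V : {V : ValuationSubring K // (((BB h).map f : Subring K) : Set K) ⊆
        V.toSubring}, V.1.toSubring) := by
      rw [Subring.mem_iInf]
      intro V
      exact hx V.1 V.2
    rw [iInf_valuationSubring_superset] at h1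
    have h2 : IsIntegral (Subring.closure (((BB h).map f : Subring K) : Set K)) (f x) := h1
    obtain ⟨p, hp, hp0⟩ := h2
    have hle : ∀ z ∈ Subring.closure (((BB h).map f : Subring K) : Set K), ∃ b : BB h, f b = z := by
      intro z hz
      rw [Subring.closure_eq] at hz
      obtain ⟨b, hb, rfl⟩ := hz
      exact ⟨⟨b, hb⟩, rfl⟩
    let φ : BB h →+* K := f.comp (BB h).subtype
    have hlift : p.map (Subring.closure (((BB h).map f : Subring K) : Set K)).subtype ∈
        Polynomial.lifts φ := by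
      rw [Polynomial.lifts_iff_coeff_lifts]
      intro m
      rw [Polynomial.coeff_map]
      obtain ⟨b, hb⟩ := hle _ (p.coeff m).2
      exact ⟨b, hb⟩
    obtain ⟨P, hP, hPm⟩ : ∃ P : Polynomial (BB h), P.map φ =
        p.map (Subring.closure (((BB h).map f : Subring K) : Set K)).subtype ∧ P.Monic := by
      obtain ⟨P, h3, _, h4⟩ := Polynomial.lifts_and_degree_eq_and_monic hlift (hp.map _)
      exact ⟨P, h3, h4⟩
    refine ⟨P, hPm, ?_⟩
    apply hf
    rw [map_zero, Polynomial.hom_eval₂]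
    have h5 : Polynomial.eval₂ (f.comp (algebraMap (BB h) (Lo n k))) (f x) P =
        Polynomial.eval (f x) (P.map φ) := by
      rw [Polynomial.eval_map]
      rfl
    rw [h5, hP, Polynomial.eval_map]
    exact hp0
  exact ⟨desc _ fun V hV => (key V hV).1, desc _ fun V hV => (key V hV).2⟩

end main

theorem t_INT (n d : ℕ) (k : Type) [Field k] [IsAlgClosed k] [CharZero k] (_hn : 3 ≤ n)
    (hd : 2 ≤ d) : S_RES n d k → S_INT n d k := by
  rintro ⟨Θ, hΘ⟩ h f ⟨p, m, hpm⟩
  have hent := entries_integral hd hΘ h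
  have hX : ∀ P : MvPolynomial (Fin n × Fin n) k, IsIntegral (BB h) (algebraMap _ (Lo n k) P) := by
    intro P
    induction P using MvPolynomial.induction_on with
    | C a =>
      have h1 : algebraMap (MvPolynomial (Fin n × Fin n) k) (Lo n k) (C a) =
          algebraMap k (Lo n k) a := by
        rw [IsScalarTower.algebraMap_apply k (MvPolynomial (Fin n × Fin n) k) (Lo n k),
          MvPolynomial.algebraMap_eq]
      rw [h1]
      exact isIntegral_algebraMap (x := (⟨_, alg_mem h a⟩ : BB h))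
    | add P Q hP hQ =>
      rw [map_add]
      exact hP.add hQ
    | mul_X P q hP =>
      rw [map_mul]
      exact hP.mul (hent q.1 q.2).1
  have hdet : IsIntegral (BB h) ((GG⁻¹ : GL (Fin n) (Lo n k)).1).det :=
    IsIntegral.det fun i j => (hent i j).2
  have hall : IsIntegral (BB h) (algebraMap _ (Lo n k) p * ((GG⁻¹ : GL (Fin n) (Lo n k)).1).det ^ m) :=
    (hX p).mul (hdet.pow m)
  have hPsi : Psi (algebraMap _ (Lo n k) p * ((GG⁻¹ : GL (Fin n) (Lo n k)).1).det ^ m) = f := by
    funext g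
    change evg g _ = f g
    rw [map_mul, map_pow, evg_alg, RingHom.map_det, ← hpm g]
    have h2 : (evg g).mapMatrix ((GG⁻¹ : GL (Fin n) (Lo n k)).1) = (g⁻¹ : GL (Fin n) k).1 :=
      congrArg Units.val (map_GG' g)
    rw [h2, mul_assoc, ← mul_pow, ← Matrix.det_mul]
    have h3 : g.1 * (g⁻¹ : GL (Fin n) k).1 = 1 := g.mul_inv
    rw [h3, Matrix.det_one, one_pow, mul_one]
  let φ : BB h →+* Cs h := (Psi.comp (BB h).subtype).codRestrict (Cs h) (fun b => b.2)
  have := IsIntegral.map_of_comp_eq φ (Psi (n := n) (k := k)) (by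
    ext b
    rfl) hall
  rw [hPsi] at this
  exact this

end

end Run7.h267.MD
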